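import Pool.Agent.TH894.SM8

/-!
# The order of magnitude (and the asymptotic formula) for binary Goldbach representation numbers, for
almost all numbers which arise from an arbitrary large integer by a bounded number of changes of digits

Definitions used from `Pool.Agent.H560R3.GB`: `C₂`: the twin prime constant
`∏_{p > 2} (1 - 1 / (p - 1) ^ 2)`; `sing n`: the singular series `2 C₂ ∏_{p ∣ n, p > 2} (p - 1) / (p - 2)`;
`g n`: the number of ordered representations of `n` as a sum of two primes (`r₂(n; ℙ)` in the problem);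
`HL n = sing n * n / log ^ 2 n`: the prediction of Hardy and Littlewood for `g n`.
-/

set_option autoImplicit false

namespace Pool.Agent.Results.MP_629a14_nt.AlmostAllDigitChanges

open Finset Pool.Agent.H560R3.GB

/-- (1) the number of representations of `n` as a sum of two primes agrees with the prediction of Hardy
and Littlewood up to a relative error of at most `ε`; (2) it lies between `(1 - ε) C₂` and `1 + ε` times
`n² / (φ(n) log² n)`; (3) `n` is a sum of two distinct primes. -/
def Holds (ε : ℝ) (n : ℕ) : Prop :=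
  |(g n : ℝ) - HL n| ≤ ε * HL n ∧
  (1 - ε) * C₂ * ((n : ℝ) ^ 2 / (n.totient * Real.log n ^ 2)) ≤ g n ∧
  (g n : ℝ) ≤ (1 + ε) * ((n : ℝ) ^ 2 / (n.totient * Real.log n ^ 2)) ∧
  ∃ p q : ℕ, p.Prime ∧ q.Prime ∧ p ≠ q ∧ p + q = n

/-- The digit number `i` (counted from the right, beginning with `0`) of `n` in base `b`. -/
def digit (b i n : ℕ) : ℕ := n / b ^ i % b

/-- The number which arises from the number `N` with at most `K` digits in base `b`, if for every `i ∈ S`
the digit number `i` is replaced by `f i`. -/
def change (b K N : ℕ) (f : ℕ → ℕ) (S : Finset ℕ) : ℕ :=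
  ∑ i ∈ range K, (if i ∈ S then f i else digit b i N) * b ^ i

/-- The positions `1, ..., K - 2` (all positions of a number with `K` digits, except for the first and the
last one) are divided into three windows: the first and the last `h` positions and the rest. -/
def window (h K : ℕ) (q : Fin 3) : Finset ℕ :=
  if q = 0 then Ico 1 (1 + h) else if q = 1 then Ico (1 + h) (K - 1 - h) else Ico (K - 1 - h) (K - 1)

/-- The choices of `r 0`, `r 1`, `r 2` positions in the three windows. -/
def choices (h K : ℕ) (r : Fin 3 → ℕ) : Finset (Fin 3 → Finset ℕ) :=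
  Fintype.piFinset (fun q => powersetCard (r q) (window h K q))

open Classical in
/-- The number of the choices for which the number obtained by changing the digits of `N` at the chosen
positions (according to `f`) is even, but does not satisfy `Holds ε`. -/
noncomputable def exceptions (ε : ℝ) (b h K N : ℕ) (f : ℕ → ℕ) (r : Fin 3 → ℕ) : ℕ :=
  ((choices h K r).filter (fun S => Even (change b K N f (S 0 ∪ S 1 ∪ S 2)) ∧
    ¬ Holds ε (change b K N f (S 0 ∪ S 1 ∪ S 2)))).card

lemma C₂_nonneg : 0 ≤ C₂ := by
  unfold C₂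
  apply Real.iInf_nonneg
  intro z
  apply prod_nonneg
  intro p hp
  rw [mem_filter, mem_Icc] at hp
  exact (Pool.Agent.TH894.SM.fac_pos p hp.1.1).le

lemma holds_of (ε : ℝ) (hε : 0 < ε) (n : ℕ) (h2 : 2 ∣ n) (hG : Pool.Agent.TH894.SM.Good ε n) : Holds ε n := by
  obtain ⟨h1, p, q, hp, hq, hpq, hn⟩ := hG
  have hp2 := hp.two_le
  have hn0 : n ≠ 0 := by omega
  have hnr : (0 : ℝ) < n := by exact_mod_cast Nat.pos_of_ne_zero hn0
  have hl : 0 < Real.log n := Real.log_pos (by exact_mod_cast (by omega : 1 < n))
  have ht : (0 : ℝ) < n.totient := by exact_mod_cast Nat.totient_pos.2 (Nat.pos_of_ne_zero hn0)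
  obtain ⟨s1, s2⟩ := Pool.Agent.TH894.SM.sing_tot n hn0 h2
  have hC := C₂_nonneg
  obtain ⟨Q, hQ⟩ : ∃ Q : ℝ, Q = n / Real.log n ^ 2 := ⟨_, rfl⟩
  have hQ0 : 0 < Q := by rw [hQ]; positivity
  have e : (n : ℝ) ^ 2 / (n.totient * Real.log n ^ 2) = n / n.totient * Q := by
    rw [hQ]
    field_simp
  have hHL : HL n = sing n * Q := by
    unfold HL
    rw [hQ]
  have hR0 : 0 < (n : ℝ) / n.totient := by positivity
  refine ⟨h1, ?_, ?_, p, q, hp, hq, hpq, hn⟩
  · rw [e]
    rw [hHL, abs_le] at h1
    rcases le_or_gt ε 1 with hε1 | hε1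
    · have h3 : (1 - ε) * (C₂ * (n / n.totient) * Q) ≤ (1 - ε) * (sing n * Q) := by
        apply mul_le_mul_of_nonneg_left _ (by linarith)
        exact mul_le_mul_of_nonneg_right s1 hQ0.le
      have e2 : (1 - ε) * C₂ * (n / n.totient * Q) = (1 - ε) * (C₂ * (n / n.totient) * Q) := by ring
      rw [e2]
      linarith [h1.1]
    · have h3 : (1 - ε) * C₂ * (n / n.totient * Q) ≤ 0 := by
        apply mul_nonpos_of_nonpos_of_nonneg _ (by positivity)
        exact mul_nonpos_of_nonpos_of_nonneg (by linarith) hC
      exact h3.trans (Nat.cast_nonneg _)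
  · rw [e]
    rw [hHL, abs_le] at h1
    have h3 : (1 + ε) * (sing n * Q) ≤ (1 + ε) * (n / n.totient * Q) := by
      apply mul_le_mul_of_nonneg_left _ (by linarith)
      exact mul_le_mul_of_nonneg_right s2 hQ0.le
    linarith [h1.2]

/-- For every base `b ≥ 2` there are `R`, `A ≥ 1` with the following property. Let `ε > 0`. Then there is
a `t` such that for every sufficiently large integer `N`, with `K` digits in base `b`, the following holds.

Let `h = A (⌊log_b K⌋ + 1)` (so `h` is of the order `log log N`), and divide the positions of the digits of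
`N` (except for the first and the last digit) into three windows: the first `h` and the last `h` of them,
and the rest. Let `r 0`, `r 1`, `r 2` be integers between `t` and `1 / R` times the length of the
respective window (by the first assertion one can take `r 0 = r 1 = r 2 = t`, so that only the bounded
number `3 t` of the digits are changed). Prescribe for every position a digit `f i` different from the
digit of `N`. If `r 0`, `r 1`, `r 2` positions in the three windows are chosen, and the digits of `N` at
these positions are replaced, then for all but at most a proportion `ε` of the choices of the positions the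
number obtained is either odd or satisfies `Holds ε`: the number of its representations as a sum of two
primes satisfies the asymptotic formula of Hardy and Littlewood up to a relative error of at most `ε`, it
lies between `(1 - ε) C₂` and `1 + ε` times `n² / (φ(n) log² n)`, and the number is a sum of two distinct
primes. -/
theorem result (b : ℕ) (hb : 2 ≤ b) : ∃ R A : ℕ, 1 ≤ R ∧ 1 ≤ A ∧ ∀ ε : ℝ, 0 < ε → ∃ t K₀ : ℕ,
    ∀ K : ℕ, K₀ ≤ K → (∀ q, R * t ≤ (window (A * (Nat.log b K + 1)) K q).card) ∧
    ∀ N : ℕ, b ^ (K - 1) ≤ N → N < b ^ K → ∀ f : ℕ → ℕ, (∀ i, f i < b ∧ f i ≠ digit b i N) →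
    ∀ r : Fin 3 → ℕ, (∀ q, t ≤ r q ∧ R * r q ≤ (window (A * (Nat.log b K + 1)) K q).card) →
      (exceptions ε b (A * (Nat.log b K + 1)) K N f r : ℝ) ≤ ε * (choices (A * (Nat.log b K + 1)) K r).card := by
  classical
  obtain ⟨R, A, hR, hA, H⟩ := Pool.Agent.TH894.SM.few_general b hb
  refine ⟨8 * R, 2 * A, by omega, by omega, fun ε hε => ?_⟩
  obtain ⟨t, h1⟩ := H ε ε hε hε
  obtain ⟨k₀, hk₀⟩ := h1 t le_rfl
  obtain ⟨k1, hk1⟩ := Pool.Agent.W93.DG.hh_small b A 4 hb
  refine ⟨t, k₀ + k1 + b ^ (8 * R * t), fun K hK => ⟨?_, fun N hN hN' f hf r hr => ?_⟩⟩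
  · have e1 : 2 * A * (Nat.log b K + 1) = Pool.Agent.W93.DG.hh b A K := rfl
    rw [e1]
    have h2 := hk1 K (by omega)
    have hK0 : 1 ≤ b ^ (8 * R * t) := Nat.one_le_pow _ _ (by omega)
    have h3 : 8 * R * t ≤ Nat.log b K := Nat.le_log_of_pow_le (by omega) (by omega)
    have h4 : 8 * R * t + 2 ≤ Pool.Agent.W93.DG.hh b A K := by
      rw [← e1]
      calc 8 * R * t + 2 ≤ 2 * 1 * (Nat.log b K + 1) := by omega
        _ ≤ 2 * A * (Nat.log b K + 1) := Nat.mul_le_mul_right _ (Nat.mul_le_mul_left _ hA)
    intro q
    unfold window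
    split_ifs <;> rw [Nat.card_Ico] <;> omega
  · have e1 : 2 * A * (Nat.log b K + 1) = Pool.Agent.W93.DG.hh b A K := rfl
    rw [e1] at hr ⊢
    have hwin : ∀ q, window (Pool.Agent.W93.DG.hh b A K) K q = Pool.Agent.TH894.SM.Win (Pool.Agent.W93.DG.hh b A K) K q := fun q => rfl
    have hun : ∀ S : Fin 3 → Finset ℕ, Pool.Agent.TH894.SM.un S = S 0 ∪ S 1 ∪ S 2 := by
      intro S
      unfold Pool.Agent.TH894.SM.un
      ext x
      simp only [mem_biUnion, mem_univ, true_and, mem_union]
      constructor
      · rintro ⟨q, hq⟩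
        have hq3 : q = 0 ∨ q = 1 ∨ q = 2 := by fin_cases q <;> simp
        rcases hq3 with rfl | rfl | rfl
        · exact Or.inl (Or.inl hq)
        · exact Or.inl (Or.inr hq)
        · exact Or.inr hq
      · rintro ((h | h) | h)
        · exact ⟨0, h⟩
        · exact ⟨1, h⟩
        · exact ⟨2, h⟩
    have h2 := hk₀ K (by omega) N hN hN' f hf r (fun q => (hr q).1) (fun q => (hr q).2)
      ((choices (Pool.Agent.W93.DG.hh b A K) K r).filter (fun S => Even (change b K N f (S 0 ∪ S 1 ∪ S 2)) ∧
        ¬ Holds ε (change b K N f (S 0 ∪ S 1 ∪ S 2)))) (filter_subset _ _) (by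
          intro T hT
          rw [mem_filter] at hT
          obtain ⟨_, h3, h4⟩ := hT
          rw [hun T]
          have h5 : Pool.Agent.TH894.SM.change b K N f (T 0 ∪ T 1 ∪ T 2) = change b K N f (T 0 ∪ T 1 ∪ T 2) := rfl
          rw [h5]
          exact ⟨h3.two_dvd, fun h6 => h4 (holds_of ε hε _ h3.two_dvd h6)⟩)
    unfold exceptions
    refine h2.trans (le_of_eq ?_)
    congr 1
    unfold choices
    rw [Fintype.card_piFinset]
    push_cast
    apply prod_congr rfl
    intro q _
    rw [card_powersetCard]
    rfl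

end Pool.Agent.Results.MP_629a14_nt.AlmostAllDigitChanges
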