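import Mathlib
import Pool.Agent.TH881.RG.R3

/-! Goldbach representations after the deletion of a small proportion of the primes. -/

set_option autoImplicit false

namespace Pool.Agent.Results.MP_629a14_nt.DeletedPrimes
open Finset Filter

open Classical in
/-- The number of elements of `S` in `[1, x]`. -/
noncomputable def count (S : Set ℕ) (x : ℕ) : ℕ := ((Icc 1 x).filter (fun n => n ∈ S)).card

/-- The upper asymptotic density. -/
noncomputable def upperDensity (S : Set ℕ) : ℝ := limsup (fun x : ℕ => (count S x : ℝ) / x) atTop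

/-- The lower asymptotic density. -/
noncomputable def lowerDensity (S : Set ℕ) : ℝ := liminf (fun x : ℕ => (count S x : ℝ) / x) atTop

/-- The lower density, relative to the set of all primes, of the set of the primes in `A`. -/
noncomputable def relLower (A : Set ℕ) : ℝ :=
  liminf (fun x : ℕ => (count {p | p.Prime ∧ p ∈ A} x : ℝ) / (count {p | p.Prime} x : ℝ)) atTop

open Classical in
/-- The number of ordered representations of `n` as a sum of two primes of `A`. -/
noncomputable def r₂ (A : Set ℕ) (n : ℕ) : ℕ :=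
  ((antidiagonal n).filter (fun q : ℕ × ℕ => (q.1.Prime ∧ q.1 ∈ A) ∧ (q.2.Prime ∧ q.2 ∈ A))).card

/-- The twin prime constant `∏ (1 - 1 / (p - 1) ^ 2)`, `p > 2` prime. -/
noncomputable def C₂ : ℝ := ⨅ z : ℕ, ∏ p ∈ (Icc 3 z).filter Nat.Prime, (1 - 1 / ((p : ℝ) - 1) ^ 2)

/-- The number of representations of an even number `n` as a sum of two primes predicted by Hardy
and Littlewood: `2 C₂ ∏_{p ∣ n, p > 2} (p - 1) / (p - 2) * n / log ^ 2 n`. It lies between
`C₂ * n ^ 2 / (φ(n) log ^ 2 n)` and `n ^ 2 / (φ(n) log ^ 2 n)`. -/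
noncomputable def HL (n : ℕ) : ℝ :=
  2 * C₂ * (∏ p ∈ n.primeFactors.filter (fun p => 2 < p), ((p : ℝ) - 1) / ((p : ℝ) - 2)) *
    (n / Real.log n ^ 2)

/-- Let `0 ≤ κ < 1`, `δ > 0` and let `η > 0` be small. If `A` is a set of primes of relative lower
density at least `1 - η`, then every even number `n` outside a set of upper density at most
`exp (-exp (((1 - κ) C₂ e ^ (-γ) - δ) / η))` has more than `κ HL n` representations as a sum of two
primes of `A`; and for some such `A` the exceptional set has lower density at least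
`exp (-exp (((1 - κ) C₂ e ^ (-γ) + δ) / η))`. -/
theorem result (κ δ : ℝ) (hκ0 : 0 ≤ κ) (hκ1 : κ < 1) (hδ : 0 < δ) :
    ∃ η₀ : ℝ, 0 < η₀ ∧ ∀ η : ℝ, 0 < η → η ≤ η₀ →
    (∀ A : Set ℕ, 1 - η ≤ relLower A →
      upperDensity {n | Even n ∧ (r₂ A n : ℝ) ≤ κ * HL n} ≤
        Real.exp (-Real.exp (((1 - κ) * (C₂ * Real.exp (-Real.eulerMascheroniConstant)) - δ) / η))) ∧
    ∃ A : Set ℕ, 1 - η ≤ relLower A ∧
      Real.exp (-Real.exp (((1 - κ) * (C₂ * Real.exp (-Real.eulerMascheroniConstant)) + δ) / η)) ≤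
        lowerDensity {n | Even n ∧ (r₂ A n : ℝ) ≤ κ * HL n} :=
  Pool.Agent.TH881.RG.deleted_primes κ δ hκ0 hκ1 hδ

end Pool.Agent.Results.MP_629a14_nt.DeletedPrimes
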