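import Pool.Agent.TH882.I9

/-!
For almost all even integers `N` the number of representations `N = p + q` with primes `p`, `q` such
that `p` is far away (at distance more than `L log N`) from every other prime has the right order of
magnitude `N ^ 2 / (φ(N) (log N) ^ 2)`.
-/

set_option autoImplicit false

open Finset Filter Topology

namespace Pool.Agent.Results.MP_629a14_nt.IsolatedPrimeSummand

/-- The only prime at distance at most `R` from `p` is `p` itself (if it is one). -/
def Isolated (R : ℝ) (p : ℕ) : Prop := ∀ q : ℕ, q.Prime → |(q : ℝ) - p| ≤ R → q = p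

open Classical in
/-- The primes `p < N` with `N - p` prime and no other prime at distance at most `L * log N`. -/
noncomputable def representations (L : ℝ) (N : ℕ) : Finset ℕ :=
  (range N).filter (fun p => p.Prime ∧ (N - p).Prime ∧ Isolated (L * Real.log N) p)

open Classical in
/-- The even `N` in `[1, x]` with fewer than `c * N ^ 2 / (φ(N) * (log N) ^ 2)` representations. -/
noncomputable def exceptions (L c : ℝ) (x : ℕ) : Finset ℕ :=
  (Icc 1 x).filter (fun N => Even N ∧
    ((representations L N).card : ℝ) < c * ((N : ℝ) ^ 2 / (Nat.totient N * Real.log N ^ 2)))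

theorem result (L : ℝ) : ∃ c : ℝ, 0 < c ∧
    Tendsto (fun x : ℕ => ((exceptions L c x).card : ℝ) / x) atTop (𝓝 0) := by
  classical
  obtain ⟨c, hc, h⟩ := Pool.Agent.TH882.IS.goldbach_iso (max L 1) (by positivity)
  refine ⟨c, hc, ?_⟩
  refine squeeze_zero (fun x => by positivity) (fun x => ?_) h
  apply div_le_div_of_nonneg_right _ (Nat.cast_nonneg x)
  apply Nat.cast_le.2
  apply card_le_card
  intro N hN
  unfold exceptions at hN
  rw [mem_filter] at hN ⊢
  refine ⟨hN.1, hN.2.1, lt_of_le_of_lt ?_ hN.2.2⟩
  apply Nat.cast_le.2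
  apply card_le_card
  intro p hp
  unfold Pool.Agent.TH882.IS.RG at hp
  unfold representations
  rw [mem_filter] at hp ⊢
  refine ⟨hp.1, hp.2.1, hp.2.2.1, ?_⟩
  intro q hq hqp
  have h1 := abs_le.1 hqp
  have h2 : L * Real.log N ≤ max L 1 * Real.log N :=
    mul_le_mul_of_nonneg_right (le_max_left _ _) (Real.log_natCast_nonneg N)
  exact hp.2.2.2 q hq (by linarith) (by linarith)

end Pool.Agent.Results.MP_629a14_nt.IsolatedPrimeSummand
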