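import Pool.Agent.W93.GB4
import Pool.Agent.TH935.GF2
import Pool.Agent.TH935.GF3

/-!
# The order of magnitude (and the asymptotic formula) for binary Goldbach representation numbers, for
almost all members of arbitrary thin families of integers of nearly minimal additive energy

Definitions used from `Pool.Agent.H560R3.GB`: `C₂`: the twin prime constant
`∏_{p > 2} (1 - 1 / (p - 1) ^ 2)`; `sing n`: the singular series `2 C₂ ∏_{p ∣ n, p > 2} (p - 1) / (p - 2)`;
`g n`: the number of ordered representations of `n` as a sum of two primes (`r₂(n; ℙ)` in the problem);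
`HL n = sing n * n / log ^ 2 n`: the prediction of Hardy and Littlewood for `g n`.
-/

set_option autoImplicit false

namespace Pool.Agent.Results.MP_629a14_nt.ThinFamilies

open Finset Pool.Agent.H560R3.GB

/-- (1) the number of representations of `n` as a sum of two primes agrees with the prediction of Hardy
and Littlewood up to a relative error of at most `ε`; (2) it lies between `(1 - ε) C₂` and `1 + ε` times
`n² / (φ(n) log² n)`; (3) `n` is a sum of two distinct primes. -/
def Holds (ε : ℝ) (n : ℕ) : Prop :=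
  |(g n : ℝ) - HL n| ≤ ε * HL n ∧
  (1 - ε) * C₂ * ((n : ℝ) ^ 2 / (n.totient * Real.log n ^ 2)) ≤ g n ∧
  (g n : ℝ) ≤ (1 + ε) * ((n : ℝ) ^ 2 / (n.totient * Real.log n ^ 2)) ∧
  ∃ p q : ℕ, p.Prime ∧ q.Prime ∧ p ≠ q ∧ p + q = n

/-- The additive energy of order `h` of a finite family of integers `v i`: the number of solutions of
`v (a 1) + ... + v (a h) = v (b 1) + ... + v (b h)`. -/
noncomputable def energy (h : ℕ) {ι : Type} [Fintype ι] (v : ι → ℤ) : ℕ :=
  Nat.card {q : (Fin h → ι) × (Fin h → ι) // ∑ j, v (q.1 j) = ∑ j, v (q.2 j)}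

/-- The number of representations of `t` as `v (a 1) + ... + v (a h)`. -/
noncomputable def reps (h : ℕ) {ι : Type} [Fintype ι] (v : ι → ℤ) (t : ℤ) : ℕ :=
  Nat.card {a : Fin h → ι // ∑ j, v (a j) = t}

open Classical in
/-- The number of the members `v i` of the family which are positive and even, and for which `Holds`
fails. -/
noncomputable def exceptions (ε : ℝ) {ι : Type} [Fintype ι] (v : ι → ℤ) : ℕ :=
  (univ.filter (fun i => 0 < v i ∧ Even (v i) ∧ ¬ Holds ε (v i).toNat)).card

lemma C₂_nonneg : 0 ≤ C₂ := by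
  unfold C₂
  apply Real.iInf_nonneg
  intro z
  apply prod_nonneg
  intro p hp
  rw [mem_filter, mem_Icc] at hp
  exact (Pool.Agent.TH935.GF.fac_pos p hp.1.1).le

lemma holds_of (ε : ℝ) (hε : 0 < ε) (n : ℕ) (h2 : 2 ∣ n) (hG : Pool.Agent.W93.GB.Good ε n) : Holds ε n := by
  obtain ⟨h1, p, q, hp, hq, hpq, hn⟩ := hG
  have hp2 := hp.two_le
  have hn0 : n ≠ 0 := by omega
  have hnr : (0 : ℝ) < n := by exact_mod_cast Nat.pos_of_ne_zero hn0
  have hl : 0 < Real.log n := Real.log_pos (by exact_mod_cast (by omega : 1 < n))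
  have ht : (0 : ℝ) < n.totient := by exact_mod_cast Nat.totient_pos.2 (Nat.pos_of_ne_zero hn0)
  obtain ⟨s1, s2⟩ := Pool.Agent.TH935.GF.sing_tot n hn0 h2
  have hC := C₂_nonneg
  obtain ⟨Q, hQ⟩ : ∃ Q : ℝ, Q = n / Real.log n ^ 2 := ⟨_, rfl⟩
  have hQ0 : 0 < Q := by rw [hQ]; positivity
  have e : (n : ℝ) ^ 2 / (n.totient * Real.log n ^ 2) = n / n.totient * Q := by
    rw [hQ]
    field_simp
  have hHL : HL n = sing n * Q := by
    unfold HL
    rw [hQ]
  have hR0 : 0 < (n : ℝ) / n.totient := by positivity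
  refine ⟨h1, ?_, ?_, p, q, hp, hq, hpq, hn⟩
  · rw [e]
    rw [hHL, abs_le] at h1
    rcases le_or_gt ε 1 with hε1 | hε1
    · have h3 : (1 - ε) * (C₂ * (n / n.totient) * Q) ≤ (1 - ε) * (sing n * Q) := by
        apply mul_le_mul_of_nonneg_left _ (by linarith)
        exact mul_le_mul_of_nonneg_right s1 hQ0.le
      have e2 : (1 - ε) * C₂ * (n / n.totient * Q) = (1 - ε) * (C₂ * (n / n.totient) * Q) := by ring
      rw [e2]
      linarith [h1.1]
    · have h3 : (1 - ε) * C₂ * (n / n.totient * Q) ≤ 0 := by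
        apply mul_nonpos_of_nonpos_of_nonneg _ (by positivity)
        exact mul_nonpos_of_nonpos_of_nonneg (by linarith) hC
      exact h3.trans (Nat.cast_nonneg _)
  · rw [e]
    rw [hHL, abs_le] at h1
    have h3 : (1 + ε) * (sing n * Q) ≤ (1 + ε) * (n / n.totient * Q) := by
      apply mul_le_mul_of_nonneg_left _ (by linarith)
      exact mul_le_mul_of_nonneg_right s2 hQ0.le
    linarith [h1.2]

theorem first (h B C U : ℕ) (hh : 1 ≤ h) (ε : ℝ) (hε : 0 < ε) :
    ∃ N₀ : ℕ, ∀ N : ℕ, N₀ ≤ N → ∀ (ι : Type) [Fintype ι] (v : ι → ℤ),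
      (∀ i, v i ≤ B * N) →
      (energy h v : ℝ) * N ≤ Real.log N ^ C * (Fintype.card ι : ℝ) ^ (2 * h) →
      (exceptions ε v : ℝ) ≤ Fintype.card ι / Real.log N ^ U := by
  classical
  obtain ⟨N₀, h0⟩ := Pool.Agent.TH935.GF.transfer h B C U (Holds ε) (by
    intro B C U
    obtain ⟨N₀, h1⟩ := Pool.Agent.W93.GB.fam h B C U hh ε hε
    refine ⟨N₀, fun N hN x s hs hE S hSx hS => h1 N hN x s hs hE S hSx fun m hm hG => hS m hm ?_⟩
    exact holds_of ε hε (s m) (hs m (hSx hm)).2 hG)
  refine ⟨N₀, fun N hN ι _ v hv hE => ?_⟩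
  unfold exceptions
  refine h0 N hN ι v hv hE _ ?_
  intro i hi
  rw [mem_filter] at hi
  exact hi.2

/-- Let `h ≥ 1`, `B`, `C`, `U` and `ε > 0` be fixed, and let `N` be large. Let `v i`, `i ∈ ι`, be an
arbitrary finite family of integers `≤ B N`.

* Suppose that the additive energy of order `h` of the family is at most `log ^ C N` times
  `(#ι) ^ (2 h) / N` (up to the power of the logarithm this is the least possible energy of a family with
  members in `[0, N]`, and the family may have as few as `N ^ (1 / h)` members). Then all of its positive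
  even members, with at most `#ι / log ^ U N` exceptions, are sums of two distinct primes, and the number
  of their representations as a sum of two primes satisfies the asymptotic formula of Hardy and
  Littlewood up to a relative error of at most `ε`; in particular it lies between `(1 - ε) C₂` and
  `1 + ε` times `n² / (φ(n) log² n)`.
* In particular this holds if no integer has more than `log ^ C N` representations as a sum of `h` members
  of the family, and `(#ι) ^ h ≥ N / log ^ C N`.

(Both hypotheses are invariant under translations: the results hold in every translate of the family.) -/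
theorem result (h B C U : ℕ) (hh : 1 ≤ h) (ε : ℝ) (hε : 0 < ε) :
    (∃ N₀ : ℕ, ∀ N : ℕ, N₀ ≤ N → ∀ (ι : Type) [Fintype ι] (v : ι → ℤ),
      (∀ i, v i ≤ B * N) →
      (energy h v : ℝ) * N ≤ Real.log N ^ C * (Fintype.card ι : ℝ) ^ (2 * h) →
      (exceptions ε v : ℝ) ≤ Fintype.card ι / Real.log N ^ U) ∧
    (∃ N₀ : ℕ, ∀ N : ℕ, N₀ ≤ N → ∀ (ι : Type) [Fintype ι] (v : ι → ℤ),
      (∀ i, v i ≤ B * N) →
      (∀ t, (reps h v t : ℝ) ≤ Real.log N ^ C) →
      (N : ℝ) ≤ Real.log N ^ C * (Fintype.card ι : ℝ) ^ h →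
      (exceptions ε v : ℝ) ≤ Fintype.card ι / Real.log N ^ U) := by
  refine ⟨first h B C U hh ε hε, ?_⟩
  obtain ⟨N₀, h0⟩ := first h B (2 * C) U hh ε hε
  obtain ⟨N₁, h1⟩ := Pool.Agent.H373R2.T7.ev_L' 1
  refine ⟨N₀ + N₁, fun N hN ι _ v hv hJ hx => ?_⟩
  apply h0 N (by omega) ι v hv
  have hL := h1 N (by omega)
  have hL0 : 0 ≤ Real.log N := by linarith
  have h2 : (energy h v : ℝ) ≤ (Fintype.card ι : ℝ) ^ h * Real.log N ^ C :=
    Pool.Agent.TH935.GF.En_le h v _ hJ
  calc (energy h v : ℝ) * N ≤ ((Fintype.card ι : ℝ) ^ h * Real.log N ^ C) * (Real.log N ^ C * (Fintype.card ι : ℝ) ^ h) :=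
        mul_le_mul h2 hx (Nat.cast_nonneg _) (by positivity)
    _ = Real.log N ^ (2 * C) * (Fintype.card ι : ℝ) ^ (2 * h) := by ring

end Pool.Agent.Results.MP_629a14_nt.ThinFamilies
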